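import Pool.Agent.TH346.CG.Four

/-!
# Large chromatic number forces induced cubes in `K₄`-free Cayley graphs of abelian groups

For every `M` there is `C` such that every Cayley graph of a finite abelian group with clique number
at most `3` and chromatic number larger than `C` contains the `M`-dimensional cube as an induced
subgraph.  Every forest is an induced subgraph of a cube, so this gives the Gyárfás–Sumner conjecture
for the Cayley graphs of finite abelian groups of clique number at most `3`, in particular for the
triangle-free ones.

Proof.  Let `A` be the (symmetric) generating set and assume that there is no induced `M`-cube.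

1. Every `M`-tuple of generators has a signed sub-sum with at least two terms which is `0` or in `A`
   (`P M A {0}`), since otherwise the sums of the tuple form an induced cube.
2. Let `P (j + 1) A V` be the property that every `j + 1`-tuple from `A \ V` has a signed sub-sum
   with at least two terms in `A ∪ V`.  If it holds and `B ⊆ A \ V` is not empty, then `P j A V'`
   holds, where `V'` consists of `V` and of the `z` with `z + b ∈ A ∪ V` or `z - b ∈ A ∪ V` for a
   proportion `3 ^ -j` of the `b ∈ B` (union bound).  As `P 0` is false, `A ⊆ V` after `M` steps.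
3. `B` is chosen structured, inside a translate of `k (B₀ - B₀)` with `B₀ ⊆ A`,
   `|B₀ - B₀| = O(|B₀|)`, and `|A \ V| = O(|B|)`: for many `M`-tuples from `A \ V` a fixed signed
   sub-sum is in `V`, and then `A \ V` has a large part in one translate of one of the sets of 4, or
   in `A \ V`, and then `A \ V` has large additive energy and the theorem of Balog, Szemerédi and
   Gowers applies.
4. Each `V` is covered by `O(1)` translates of sets `k (B₀ - B₀)` as in 3 (packing).
5. So `A` is a union of `O(1)` symmetric sets `S` of small tripling, and the product of proper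
   colourings of their Cayley graphs is a proper colouring of `G`.
6. The translates of `A` have bounded Vapnik–Chervonenkis dimension, hence a packing bound, hence the
   set `E` of the `e ∈ 2 S` for which `A` and `A + e` differ in at most `|S| / 16` elements of `9 S`
   has `|S| = O(|E|)`.  If `a ∈ S` is in `4 E`, then `s, s + a, s - a ∈ A` for some `s ∈ S`, and
   `0, a, s, s + a` is a clique.  Otherwise the group is divided into regions, each contained in a
   translate `z + 2 E` with the sets `z + E` disjoint; no edge in a direction of `S` is inside a
   region, and the graph of the regions has bounded degree, which gives a colouring.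
-/

namespace Pool.Agent.Results.MP_763321_co.AbelianCayley

/-- The `M`-dimensional cube: the subsets of `Fin M`, adjacent when they differ in one element. -/
def Cube (M : ℕ) : SimpleGraph (Finset (Fin M)) where
  Adj S T := (symmDiff S T).card = 1
  symm := ⟨fun S T h => by rw [symmDiff_comm]; exact h⟩
  loopless := ⟨fun S h => by simp at h⟩

theorem result :
    -- cubes
    (∀ M : ℕ, ∃ C : ℕ, ∀ (Γ : Type) [AddCommGroup Γ] [Fintype Γ] (A : Set Γ),
      (SimpleGraph.addCayley A).CliqueFree 4 →
      ¬ (Cube M).IsIndContained (SimpleGraph.addCayley A) →
      (SimpleGraph.addCayley A).Colorable C) ∧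
    -- forests
    (∀ (m : ℕ) (F : SimpleGraph (Fin m)), F.IsAcyclic →
      ∃ C : ℕ, ∀ (Γ : Type) [AddCommGroup Γ] [Fintype Γ] (A : Set Γ),
        (SimpleGraph.addCayley A).CliqueFree 4 →
        ¬ F.IsIndContained (SimpleGraph.addCayley A) →
        (SimpleGraph.addCayley A).Colorable C) := by
  have h1 : ∀ M : ℕ, ∃ C : ℕ, ∀ (Γ : Type) [AddCommGroup Γ] [Fintype Γ] (A : Set Γ),
      (SimpleGraph.addCayley A).CliqueFree 4 →
      ¬ (Cube M).IsIndContained (SimpleGraph.addCayley A) →
      (SimpleGraph.addCayley A).Colorable C := by
    intro M
    obtain ⟨C, hC⟩ := Pool.Agent.TH346.CG.four_cube M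
    exact ⟨C, fun Γ _ _ A h4 hind => hC Γ A h4 ⟨fun f => hind ⟨f⟩⟩⟩
  refine ⟨h1, ?_⟩
  intro m F hF
  obtain ⟨M, ⟨g⟩⟩ := Pool.Agent.TH283.CG.forest_cube F hF
  obtain ⟨C, hC⟩ := h1 M
  refine ⟨C, fun Γ _ _ A h4 hind => hC Γ A h4 ?_⟩
  rintro ⟨f⟩
  exact hind ⟨g.trans f⟩

end Pool.Agent.Results.MP_763321_co.AbelianCayley
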