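import Pool.Agent.TH346.CG.Fin

/-!
# Gyárfás–Sumner for Cayley graphs of abelian groups of bounded exponent

For every `M` and `r ≥ 1` there is a function `f` such that `χ(G) ≤ f(ω(G))` for every Cayley graph
`G` of a finite abelian group of exponent dividing `r` which does not contain the `M`-dimensional
cube as an induced subgraph.  In particular (every forest is an induced subgraph of a cube) the
Gyárfás–Sumner conjecture holds for these Cayley graphs, in all clique numbers.

Proof.  As in `AbelianCayley` (same folder) the generating set `A` is a union of `O(1)` symmetric sets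
`S` of small tripling.  The translates of `A` have bounded Vapnik–Chervonenkis dimension, hence a
polynomial packing bound.  By a pigeonhole over the scales there is a set `E` of near-periods of `A`
in the bounded sumsets of `S` with `|4 E| = O(|E|)`, uniformly in the precision, and `S` is covered by
`O(1)` translates of `E`; by Ruzsa's covering lemma and the bounded exponent the subgroup `H` generated
by `E` is a bounded sumset of `E` and consists of near-periods.  A clique of `G` contained in `H` can be
extended by a translate of most elements of `S`, so `G[H]`, the Cayley graph of `H` generated by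
`A ∩ H`, has smaller clique number: induction.  The generators in the `O(1)` cosets of `H` other than
`H` which meet `S` are taken care of by `3`-colourings of the quotient.
-/

namespace Pool.Agent.Results.MP_763321_co.BoundedExponent

/-- The `M`-dimensional cube: the subsets of `Fin M`, adjacent when they differ in one element. -/
def Cube (M : ℕ) : SimpleGraph (Finset (Fin M)) where
  Adj S T := (symmDiff S T).card = 1
  symm := ⟨fun S T h => by rw [symmDiff_comm]; exact h⟩
  loopless := ⟨fun S h => by simp at h⟩

theorem result :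
    -- cubes
    (∀ M r : ℕ, 1 ≤ r → ∃ f : ℕ → ℕ, ∀ (Γ : Type) [AddCommGroup Γ] [Fintype Γ] (A : Set Γ),
      (∀ x : Γ, r • x = 0) → ¬ (Cube M).IsIndContained (SimpleGraph.addCayley A) →
      (SimpleGraph.addCayley A).chromaticNumber ≤ f (SimpleGraph.addCayley A).cliqueNum) ∧
    -- forests
    (∀ (m : ℕ) (F : SimpleGraph (Fin m)), F.IsAcyclic → ∀ r : ℕ, 1 ≤ r →
      ∃ f : ℕ → ℕ, ∀ (Γ : Type) [AddCommGroup Γ] [Fintype Γ] (A : Set Γ),
        (∀ x : Γ, r • x = 0) → ¬ F.IsIndContained (SimpleGraph.addCayley A) →
        (SimpleGraph.addCayley A).chromaticNumber ≤ f (SimpleGraph.addCayley A).cliqueNum) := by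
  have h1 : ∀ M r : ℕ, 1 ≤ r → ∃ f : ℕ → ℕ, ∀ (Γ : Type) [AddCommGroup Γ] [Fintype Γ]
      (A : Set Γ), (∀ x : Γ, r • x = 0) →
      ¬ (Cube M).IsIndContained (SimpleGraph.addCayley A) →
      (SimpleGraph.addCayley A).chromaticNumber ≤ f (SimpleGraph.addCayley A).cliqueNum := by
    intro M r hr
    obtain ⟨f, hf⟩ := Pool.Agent.TH346.CG.exp_cube M r hr
    exact ⟨f, fun Γ _ _ A htor hind =>
      (hf Γ A htor ⟨fun g => hind ⟨g⟩⟩).chromaticNumber_le⟩
  refine ⟨h1, ?_⟩
  intro m F hF r hr
  obtain ⟨M, ⟨g⟩⟩ := Pool.Agent.TH283.CG.forest_cube F hF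
  obtain ⟨f, hf⟩ := h1 M r hr
  refine ⟨f, fun Γ _ _ A htor hind => hf Γ A htor ?_⟩
  rintro ⟨e⟩
  exact hind ⟨g.trans e⟩

end Pool.Agent.Results.MP_763321_co.BoundedExponent
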