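import Pool.Agent.TH71.TG.Cls
import Pool.Agent.TH780.OG.RamseyFinal

set_option autoImplicit false

/-!
# The Gyárfás–Sumner conjecture in Ramsey form and for order-invariant graphs
(helper780 and helper71)

**(1) Ramsey form, for all graphs.** If `χ(H) ≤ c`, then Ramsey's theorem, applied to the colouring
of the `k`-subsets `x` of a large set by the colour of `φ x`, shows that every map `φ` from the
`k`-subsets of an `N`-set to the vertices of `H` maps the `k`-subsets of some `n`-set to an
independent set, if `N` is large in terms of `k`, `n` and `c`. The Gyárfás–Sumner conjecture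
therefore implies that for every forest `F` and every graph `H` without induced `F` this holds as
soon as `N` is large in terms of `k`, `n`, `F` and `ω(H)`. This consequence is proved here, for all
finite graphs `H` and all forests `F`. For example, if a graph `H` contains (as a not necessarily
induced subgraph, or as a homomorphic image) a large shift graph on `k`-subsets, or a large type
graph, then `H` contains a large clique or `F` as an induced subgraph.

**(2) Polynomial bound for order-invariant graphs.** Here the vertices are `k`-tuples of elements of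
a linear order, finite or infinite, and the adjacency of two tuples `x`, `y` depends only on the
order type of the pair `(x, y)`: shift graphs, generalized shift graphs, Specker graphs, type graphs,
arbitrary unions of them, and all graphs defined without quantifiers in a linear order. If such a
graph does not contain the forest `F` on `m` vertices as an induced subgraph and has no clique of
size `c`, then its chromatic number is at most `(k * (m + c)) ^ k`.

Ideas. (1) By Ramsey's theorem one may assume that the adjacency of `φ x` and `φ y` depends only on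
the order type of the pair `(x, y)`. If one of the adjacent types admits long chains, there is a
large clique. Otherwise one chooses among all adjacent pairs one, `(a, b)`, for which `b` occupies
the smallest number of cells of `a` (the entries of `a` and the gaps between them) and builds a tree
depth-first, each new vertex being placed by the type of `(a, b)` immediately to the right of its
parent.

(2) An edge between two tuples of the same order type is a pair of increasing `r`-tuples `x`, `y`
of rational numbers. If `x q < y p` for some `p < q`, then the coordinates `p`, `q` can be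
identified by means of an automorphism of the rational order which maps `x` to `y`. If no such pair
exists for any edge and there is an edge without coincidences `x i = y j` for `i ≠ j`, there are
large cliques; and otherwise all forests are obtained by adding leaves. So tuples of the same order
type are not adjacent if the linear order has at least `k * (m + c)` elements.
-/

namespace Pool.Agent.Results.MP_763321_co.OrderInvariantGraphs

/-- `S` is a set of `k`-tuples of elements of the linear order `α` and `G` a graph on `S`. Whether
`x` belongs to `S` depends only on the order type of `x`, and whether `x` and `y` are adjacent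
depends only on the order type of the pair `(x, y)`. -/
def OrderInvariant {α : Type*} [LinearOrder α] {k : ℕ} (S : Set (Fin k → α))
    (G : SimpleGraph S) : Prop :=
  (∀ x x' : Fin k → α, (∀ i j, x i < x j ↔ x' i < x' j) → x ∈ S → x' ∈ S) ∧
  ∀ x y x' y' : S, (∀ i j, x.1 i < x.1 j ↔ x'.1 i < x'.1 j) →
    (∀ i j, y.1 i < y.1 j ↔ y'.1 i < y'.1 j) → (∀ i j, x.1 i < y.1 j ↔ x'.1 i < y'.1 j) →
    (∀ i j, y.1 i < x.1 j ↔ y'.1 i < x'.1 j) → G.Adj x y → G.Adj x' y'

open Pool.Agent.TH71.TG in
/-- In a large linear order, tuples of the same order type are not adjacent. -/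
lemma not_adj {α : Type*} [LinearOrder α] {k m c : ℕ} (F : SimpleGraph (Fin m))
    (hF : F.IsAcyclic) (S : Set (Fin k → α)) (G : SimpleGraph S) (hG : OrderInvariant S G)
    (hind : ¬ F.IsIndContained G) (hc : G.CliqueFree c) (T : Finset α)
    (hT : k * (m + c) ≤ T.card) (x y : S) (hxy : ∀ i j, x.1 i < x.1 j ↔ y.1 i < y.1 j) :
    ¬ G.Adj x y := by
  classical
  intro hadj
  let G' : SimpleGraph (Fin k → α) :=
    { Adj := fun u v => ∃ (hu : u ∈ S) (hv : v ∈ S), G.Adj ⟨u, hu⟩ ⟨v, hv⟩
      symm := ⟨fun u v ⟨hu, hv, h⟩ => ⟨hv, hu, h.symm⟩⟩
      loopless := ⟨fun u ⟨_, _, h⟩ => G.irrefl h⟩ }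
  have hinv : Inv G' := by
    rintro u v u' v' h1 h2 h3 h4 ⟨hu, hv, h⟩
    exact ⟨hG.1 u u' h1 hu, hG.1 v v' h2 hv, hG.2 ⟨u, hu⟩ ⟨v, hv⟩ ⟨u', _⟩ ⟨v', _⟩ h1 h2 h3 h4 h⟩
  rcases cliqueOrForest F hF G' hinv T hT x.1 y.1 ⟨x.2, y.2, hadj⟩ hxy with
    ⟨w, hw1, hw2⟩ | ⟨w, hw1, hw2, hw3⟩
  · have hwS : ∀ a, w a ∈ S := fun a => hG.1 x.1 (w a) (hw1 a) x.2
    have hadj' : ∀ a b, a ≠ b → G.Adj ⟨w a, hwS a⟩ ⟨w b, hwS b⟩ := by
      intro a b hab
      obtain ⟨_, _, h⟩ := hw2 a b hab
      exact h
    have hinj : Function.Injective fun a : Fin c => (⟨w a, hwS a⟩ : S) := by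
      intro a b hab
      by_contra hne
      exact G.ne_of_adj (hadj' a b hne) hab
    refine hc (Finset.univ.map ⟨_, hinj⟩) ?_
    constructor
    · intro p hp q hq hpq
      rw [Finset.mem_coe, Finset.mem_map] at hp hq
      obtain ⟨a, _, rfl⟩ := hp
      obtain ⟨b, _, rfl⟩ := hq
      exact hadj' a b fun h => hpq (by rw [h])
    · simp
  · have hwS : ∀ a, w a ∈ S := fun a => hG.1 x.1 (w a) (hw1 a) x.2
    apply hind
    refine ⟨⟨⟨fun a => ⟨w a, hwS a⟩, ?_⟩, ?_⟩⟩
    · intro a b hab
      exact hw2 (Subtype.ext_iff.1 hab)
    · intro a b
      rw [hw3]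
      exact ⟨fun h => ⟨_, _, h⟩, fun ⟨_, _, h⟩ => h⟩

/-- If tuples of the same order type are not adjacent, `k ^ k` colours are enough. -/
lemma colorable_rank {α : Type*} [LinearOrder α] {k : ℕ} (S : Set (Fin k → α)) (G : SimpleGraph S)
    (h1 : ∀ x y : S, (∀ i j, x.1 i < x.1 j ↔ y.1 i < y.1 j) → ¬ G.Adj x y) :
    G.Colorable (k ^ k) := by
  let C : G.Coloring (Fin k → Fin k) :=
    SimpleGraph.Coloring.mk (fun x => Pool.Agent.TH71.TG.rank x.1) (by
      intro x y hxy hr
      refine h1 x y ?_ hxy
      intro i j
      rw [← Pool.Agent.TH71.TG.rank_iff x.1, ← Pool.Agent.TH71.TG.rank_iff y.1, hr])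
  have h2 := C.colorable
  rwa [Fintype.card_fun, Fintype.card_fin] at h2

/-- If the linear order has fewer than `N` elements, `N ^ k` colours are enough. -/
lemma colorable_small {α : Type*} [LinearOrder α] {k N : ℕ} (S : Set (Fin k → α))
    (G : SimpleGraph S) (hT : ∀ T : Finset α, T.card < N) : G.Colorable (N ^ k) := by
  classical
  have hfin : Finite α := by
    by_contra hinf
    rw [not_finite_iff_infinite] at hinf
    obtain ⟨T, hT'⟩ := Infinite.exists_subset_card_eq α N
    exact absurd (hT T) (by omega)
  have := Fintype.ofFinite α
  have : Fintype S := Fintype.ofFinite S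
  refine G.colorable_of_fintype.mono ?_
  calc Fintype.card S ≤ Fintype.card (Fin k → α) :=
        Fintype.card_le_of_injective (fun x : S => x.1) Subtype.val_injective
    _ = Fintype.card α ^ k := by rw [Fintype.card_fun, Fintype.card_fin]
    _ ≤ N ^ k := Nat.pow_le_pow_left (hT Finset.univ).le k

universe u

/-- **The Gyárfás–Sumner conjecture in Ramsey form, for all finite graphs, and, with a polynomial
bound, for all order-invariant graphs on `k`-tuples.** -/
theorem result (k m : ℕ) (F : SimpleGraph (Fin m)) (hF : F.IsAcyclic) :
    (∀ n : ℕ, ∃ f : ℕ → ℕ, ∀ (V : Type) [Finite V] (H : SimpleGraph V), ¬ F.IsIndContained H →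
      ∀ N : ℕ, f H.cliqueNum ≤ N → ∀ φ : Finset (Fin N) → V,
        ∃ A : Finset (Fin N), A.card = n ∧
          ∀ x ⊆ A, ∀ y ⊆ A, x.card = k → y.card = k → ¬ H.Adj (φ x) (φ y)) ∧
    ∀ (c : ℕ) (α : Type u) [LinearOrder α] (S : Set (Fin k → α)) (G : SimpleGraph S),
      OrderInvariant S G → ¬ F.IsIndContained G → G.CliqueFree c →
        G.Colorable ((k * (m + c)) ^ k) := by
  classical
  constructor
  · intro n
    exact Pool.Agent.TH780.OG.ramsey_form k n m F hF
  · intro c α _ S G hG hind hc
    have hc1 : 1 ≤ c := by
      rcases Nat.eq_zero_or_pos c with h | h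
      · exfalso
        subst h
        refine hc ∅ ?_
        constructor
        · simp
        · simp
      · exact h
    by_cases hT : ∃ T : Finset α, k * (m + c) ≤ T.card
    · obtain ⟨T, hT⟩ := hT
      refine (colorable_rank S G (not_adj F hF S G hG hind hc T hT)).mono
        (Nat.pow_le_pow_left ?_ k)
      exact Nat.le_mul_of_pos_right k (by omega)
    · push Not at hT
      exact colorable_small S G hT

end Pool.Agent.Results.MP_763321_co.OrderInvariantGraphs
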