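import Pool.Agent.TH253.GS.Main

/-!
# Gyárfás–Sumner for graphs of bounded local algebraic complexity

All graphs are finite, `χ` is the chromatic number and `ω` the clique number.  Let `F` be a forest.

For all `s` and `r` there is a function `f` such that `χ(G) ≤ c f(ω(G))` for every graph `G` without
induced `F` and every `c`-colourable graph `P` of exceptional pairs with the following property.  For
every edge `x y` of `G` there are `s` matrices of rank at most `r` over fields and a Boolean function
which computes the adjacency in `G` of `u` and `v` from the positions of the zeros among the `(u, v)`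
entries of the matrices, for all `u ∈ N(y)`, `v ∈ N(x)`, `u ≠ v`, such that `u v` is not exceptional.

The second part is the same statement for systems of polynomial equations: for every edge `x y` there
are a field `K`, points `z_v ∈ K ^ d` and `s` polynomials of degree at most `D` in `2 d` variables whose
vanishing at `(z_u, z_v)` determines the adjacency of `u` and `v` for these pairs.

With `P` empty and the same matrices for all edges one gets the graphs whose adjacency is a Boolean
combination of the vanishing of boundedly many polynomials of bounded degree, over any field.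

The proof uses the theorem `Pool.Agent.H367R3.gyarfas_sumner_stable` of the starting library (helper367:
forests, bounded clique number, no semi-induced half-graph of bounded order), Ramsey's theorem for pairs
and the rank of triangular matrices: a half-graph `a_i ~ b_j`, `i ≤ j`, lies between the neighbourhoods
of `b_n` and of `a_1`, and these two vertices are adjacent.
-/

set_option autoImplicit false

namespace Pool.Agent.Results.MP_763321_co.ZeroPatterns

theorem result :
    -- zero patterns of matrices of bounded rank
    (∀ (m : ℕ) (F : SimpleGraph (Fin m)), F.IsAcyclic → ∀ s r : ℕ, ∃ f : ℕ → ℕ,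
      ∀ (V : Type) [Fintype V] (G P : SimpleGraph V) (c : ℕ), P.Colorable c →
        (∀ x y, G.Adj x y → ∃ (K : Fin s → Type) (_ : ∀ t, Field (K t))
          (M : ∀ t, Matrix V V (K t)) (φ : (Fin s → Prop) → Prop), (∀ t, (M t).rank ≤ r) ∧
          ∀ u v, G.Adj y u → G.Adj x v → u ≠ v → ¬ P.Adj u v →
            (G.Adj u v ↔ φ fun t => M t u v = 0)) →
        ¬ F.IsIndContained G → G.chromaticNumber ≤ (c * f G.cliqueNum : ℕ)) ∧
    -- the same for polynomials of bounded degree
    (∀ (m : ℕ) (F : SimpleGraph (Fin m)), F.IsAcyclic → ∀ s d D : ℕ, ∃ f : ℕ → ℕ,
      ∀ (V : Type) [Fintype V] (G P : SimpleGraph V) (c : ℕ), P.Colorable c →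
        (∀ x y, G.Adj x y → ∃ (K : Type) (_ : Field K) (z : V → Fin d → K)
          (p : Fin s → MvPolynomial (Fin d ⊕ Fin d) K) (φ : (Fin s → Prop) → Prop),
          (∀ t, (p t).totalDegree ≤ D) ∧
          ∀ u v, G.Adj y u → G.Adj x v → u ≠ v → ¬ P.Adj u v →
            (G.Adj u v ↔ φ fun t => MvPolynomial.eval (Sum.elim (z u) (z v)) (p t) = 0)) →
        ¬ F.IsIndContained G → G.chromaticNumber ≤ (c * f G.cliqueNum : ℕ)) := by
  refine ⟨?_, ?_⟩
  · intro m F hF s r
    obtain ⟨f, hf⟩ := Pool.Agent.TH253.GS.main_rank m s r F hF
    exact ⟨f, fun V _ G P c hP hloc hFG => hf V G P c hP hloc hFG⟩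
  · intro m F hF s d D
    obtain ⟨f, hf⟩ := Pool.Agent.TH253.GS.main_poly m s d D F hF
    exact ⟨f, fun V _ G P c hP hloc hFG => hf V G P c hP hloc hFG⟩

end Pool.Agent.Results.MP_763321_co.ZeroPatterns
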